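import Pool.Agent.H88.PM.Final

/-!
# Sharp threshold for perfect matchings in perturbed graphs: sequences, all edge probabilities

The statements of `Pool.Agent.H88.PM.Final` are transferred to Mathlib's binomial random graph and
to sequences.
-/

set_option autoImplicit false

namespace Pool.Agent.H59.PMI

open Filter Topology Finset
open Pool.Agent.H88.PM

/-- Monotonicity in the edge probability. -/
theorem cP_mono_p {ι : Type*} [Fintype ι] {p q : ℝ} (h0 : 0 ≤ p) (hpq : p ≤ q) (h1 : q ≤ 1)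
    {A : (ι → Bool) → Prop} (hA : ∀ ω ω' : ι → Bool, A ω → A (fun i => ω i || ω' i)) :
    cP p A ≤ cP q A := by
  rcases eq_or_lt_of_le (hpq.trans h1) with hp1 | hp1
  · have : q = p := le_antisymm (h1.trans hp1.ge) hpq
    rw [this]
  have h2 : 0 < 1 - p := by linarith
  set r : ℝ := (q - p) / (1 - p) with hr
  have hr0 : 0 ≤ r := div_nonneg (by linarith) h2.le
  have hr1 : r ≤ 1 := by rw [hr, div_le_one h2]; linarith
  have hqr : q = p + (1 - p) * r := by rw [hr]; field_simp; ring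
  rw [cP_eq q A, cE_comb p r q (fun _ b b' => b || b') ?_]
  · rw [cP_eq]
    apply cE_mono h0 hp1.le
    intro ω
    apply le_cE hr0 hr1
    intro ω'
    by_cases h : A ω
    · rw [ind_pos h, ind_pos (hA ω ω' h)]
    · rw [ind_neg h]
      exact ind_nonneg _
  · intro i η
    rw [Fintype.sum_prod_type]
    simp only [Fintype.sum_bool]
    cases η <;> simp [bw] <;> rw [hqr] <;> ring

theorem singleton_meas (n : ℕ) : MeasurableSingletonClass (SimpleGraph (Fin n)) := by
  refine ⟨fun G => ?_⟩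
  have h : ({G} : Set (SimpleGraph (Fin n))) = SimpleGraph.edgeSet ⁻¹' {G.edgeSet} := by
    ext G'
    simp
  rw [h]
  exact SimpleGraph.measurable_edgeSet (measurableSet_singleton _)

/-- Mathlib's binomial random graph and the cube. -/
theorem real_eq_cP {n : ℕ} (p : unitInterval) (P : SimpleGraph (Fin n) → Prop) :
    (SimpleGraph.binomialRandom (Fin n) p).real {G | P G} =
      cP (p : ℝ) (fun ω : Sym2 (Fin n) → Bool => P (gr ω)) := by
  classical
  have := singleton_meas n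
  rw [← sum_eq_cP (p : ℝ) P]
  have h1 : {G : SimpleGraph (Fin n) | P G} =
      ((Finset.univ.filter P : Finset (SimpleGraph (Fin n))) : Set (SimpleGraph (Fin n))) := by
    ext G; simp
  rw [h1, ← MeasureTheory.sum_measureReal_singleton, Finset.sum_filter]
  apply Finset.sum_congr rfl
  intro G _
  split_ifs with h
  · rw [MeasureTheory.measureReal_def, SimpleGraph.binomialRandom_singleton]
    simp
  · rfl

/-- The event of a perfect matching is monotone. -/
theorem pm_mono {n : ℕ} (H : SimpleGraph (Fin n)) (ω ω' : Sym2 (Fin n) → Bool)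
    (h : ∃ M : (H ⊔ gr ω).Subgraph, M.IsPerfectMatching) :
    ∃ M : (H ⊔ gr (fun i => ω i || ω' i)).Subgraph, M.IsPerfectMatching := by
  obtain ⟨M, hM⟩ := h
  have hle : H ⊔ gr ω ≤ H ⊔ gr (fun i => ω i || ω' i) := by
    apply sup_le_sup_left
    intro x y hxy
    rw [gr_adj] at hxy ⊢
    exact ⟨hxy.1, by simp [hxy.2]⟩
  refine ⟨M.map (SimpleGraph.Hom.ofLE hle), ?_⟩
  exact ⟨hM.1.map_ofLE hle, fun v => ⟨v, hM.2 v, rfl⟩⟩

/-- The probability that `H` together with the random graph has a perfect matching. -/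
noncomputable def pr {n : ℕ} (H : SimpleGraph (Fin n)) (p : ℝ) : ℝ :=
  cP p (fun ω : Sym2 (Fin n) → Bool => ∃ M : (H ⊔ gr ω).Subgraph, M.IsPerfectMatching)

theorem pr_mono {n : ℕ} (H : SimpleGraph (Fin n)) {p q : ℝ} (h0 : 0 ≤ p) (hpq : p ≤ q)
    (h1 : q ≤ 1) : pr H p ≤ pr H q :=
  cP_mono_p h0 hpq h1 (fun ω ω' h => pm_mono H ω ω' h)

theorem real_eq_pr {n : ℕ} (H : SimpleGraph (Fin n)) (p : unitInterval) :
    (SimpleGraph.binomialRandom (Fin n) p).real
      {G | ∃ M : (H ⊔ G).Subgraph, M.IsPerfectMatching} = pr H p :=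
  real_eq_cP p (fun G => ∃ M : (H ⊔ G).Subgraph, M.IsPerfectMatching)

/-- The least root. -/
theorem least_root {s : ℝ} (hs : 0 < s) :
    IsLeast {x : ℝ | x = s * Real.exp (-(s * Real.exp (-x)))} (s * ql s) := by
  constructor
  · show s * ql s = s * Real.exp (-(s * Real.exp (-(s * ql s))))
    rw [← Pl_eq hs.le, ← ql_eq hs.le]
  · intro x hx
    have hx' : x = s * Real.exp (-(s * Real.exp (-x))) := hx
    have hx0 : 0 ≤ x := by rw [hx']; positivity
    have h1 : gg s (x / s) ≤ x / s := by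
      unfold gg
      have h2 : s * (x / s) = x := by field_simp
      rw [h2, le_div_iff₀ hs]
      have h3 : Real.exp (-(s * Real.exp (-x))) * s = x := by
        rw [mul_comm]
        exact hx'.symm
      exact h3.le
    have h2 := ql_le_of_gg hs.le (by positivity : 0 ≤ x / s) h1
    rw [le_div_iff₀ hs] at h2
    linarith

/-- The threshold equation in terms of `FF`. -/
theorem eq_iff {α C γ γ' : ℝ} (hα1 : α < 1 / 2) (hC : 0 < C)
    (hγ : IsLeast {x : ℝ | x = (1 - α) * C * Real.exp (-((1 - α) * C * Real.exp (-x)))} γ)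
    (hγ' : γ' = (1 - α) * C * Real.exp (-γ)) :
    1 - (γ + γ' + γ * γ') / ((2 - 2 * α) * C) = (1 - 2 * α) / (2 - 2 * α) ↔
      FF ((1 - α) * C) = α / (1 - α) := by
  have hα2 : 0 < 1 - α := by linarith
  set s : ℝ := (1 - α) * C with hs
  have hs0 : 0 < s := by positivity
  have e1 : γ = s * ql s := hγ.unique (least_root hs0)
  have e2 : γ' = s * Pl s := by rw [hγ', e1, ← Pl_eq hs0.le]
  have e3 : (2 - 2 * α) * C = 2 * s := by rw [hs]; ring
  have e4 : γ + γ' + γ * γ' = s * (FF s + 1) := by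
    rw [e1, e2]; unfold FF; ring
  rw [e3, e4]
  have e5 : s * (FF s + 1) / (2 * s) = (FF s + 1) / 2 := by field_simp
  have e6 : (1 - 2 * α) / (2 - 2 * α) = 1 / 2 - (α / (1 - α)) / 2 := by
    have : 2 - 2 * α ≠ 0 := by intro h; linarith
    field_simp
    ring
  rw [e5, e6]
  constructor <;> intro h <;> linarith

theorem FF_inj {s s' : ℝ} (hs : 0 ≤ s) (hs' : 0 ≤ s') (h : FF s = FF s') : s = s' := by
  rcases lt_trichotomy s s' with h1 | h1 | h1
  · have := FF_strict hs h1; linarith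
  · exact h1
  · have := FF_strict hs' h1; linarith

theorem FF_pos {s : ℝ} (hs : 0 ≤ s) : 0 < FF s := by
  have h1 := FF_strict hs (s' := s + 1) (by linarith)
  have h2 := FF_nonneg (s := s + 1) (by linarith)
  linarith

theorem FF_lt_one {s : ℝ} (hs : 0 < s) : FF s < 1 := by
  have := FF_strict le_rfl hs
  rwa [FF_zero] at this

/-- The degree hypothesis. -/
theorem deg_iff {n : ℕ} (H : SimpleGraph (Fin n)) (v : Fin n) (a : ℕ) :
    a ≤ (H.neighborSet v).ncard ↔ ∃ T : Finset (Fin n), (∀ y ∈ T, H.Adj v y) ∧ a ≤ T.card := by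
  classical
  constructor
  · intro h
    refine ⟨(H.neighborSet v).toFinset, ?_, ?_⟩
    · intro y hy
      simpa using hy
    · rwa [← Set.ncard_eq_toFinset_card']
  · rintro ⟨T, hT1, hT2⟩
    refine hT2.trans ?_
    rw [← Set.ncard_coe_finset T]
    exact Set.ncard_le_ncard (fun y hy => hT1 y hy) (Set.toFinite _)

/-- The upper half for sequences. -/
theorem upper_seq {α C ε : ℝ} (hα : 0 < α) (hα1 : α < 1 / 2) (hC : 0 < C)
    (hFF : FF ((1 - α) * C) = α / (1 - α)) (hε : 0 < ε) (d : ℕ → ℕ)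
    (hd : Tendsto (fun n => (d n : ℝ) / n) (atTop ⊓ 𝓟 {n | Even n}) (𝓝 α))
    (H : ∀ n, SimpleGraph (Fin n))
    (hH : ∀ᶠ n in atTop ⊓ 𝓟 {n | Even n}, ∀ v, d n ≤ ((H n).neighborSet v).ncard)
    (p : ℕ → unitInterval)
    (hp : ∀ᶠ n in atTop ⊓ 𝓟 {n | Even n}, (1 + ε) * (C / n) ≤ (p n : ℝ)) :
    Tendsto (fun n => (SimpleGraph.binomialRandom (Fin n) (p n)).real
      {G | ∃ M : (H n ⊔ G).Subgraph, M.IsPerfectMatching}) (atTop ⊓ 𝓟 {n | Even n}) (𝓝 1) := by
  have hα2 : 0 < 1 - α := by linarith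
  set e : ℝ := min ε 1 / 3 with he
  have he0 : 0 < e := by rw [he]; positivity
  have he1 : 3 * e ≤ ε := by rw [he]; linarith [min_le_left ε 1]
  have he2 : e ≤ 1 / 3 := by rw [he]; linarith [min_le_right ε 1]
  set c : ℝ := (1 - α) * C with hc
  have hc0 : 0 < c := by positivity
  set c' : ℝ := (1 + e) * c with hc'
  have hc'0 : 0 < c' := by positivity
  have hcc' : c < c' := by rw [hc']; nlinarith
  have hF1 : FF c' < FF c := FF_strict hc0.le hcc'
  have hF0 : 0 < FF c' := FF_pos hc'0.le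
  set α' : ℝ := FF c' / (1 + FF c') with hα'
  have hα'0 : 0 < α' := by rw [hα']; positivity
  have hlt : α' < α := by
    rw [hα', div_lt_iff₀ (by positivity)]
    rw [hFF, lt_div_iff₀ hα2] at hF1
    linarith
  have hα'1 : α' < 1 / 2 := hlt.trans hα1
  have hα'2 : 0 < 1 - α' := by linarith
  have hFF' : FF c' = α' / (1 - α') := by
    have h1 : 1 - α' = 1 / (1 + FF c') := by rw [hα']; field_simp; ring
    rw [h1, hα']
    field_simp
  -- comparison of the constants
  have hCC : (1 + e) * (c' / (1 - α')) ≤ (1 + ε) * C := by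
    have h1 : c' / (1 - α') ≤ (1 + e) * C := by
      rw [div_le_iff₀ hα'2, hc', hc]
      have : (1 - α) ≤ (1 - α') := by linarith
      have := mul_le_mul_of_nonneg_left this (by positivity : 0 ≤ (1 + e) * C)
      linarith
    have h2 : (1 + e) * (c' / (1 - α')) ≤ (1 + e) * ((1 + e) * C) :=
      mul_le_mul_of_nonneg_left h1 (by positivity)
    have h3 : (1 + e) * (1 + e) ≤ 1 + ε := by nlinarith
    have h4 := mul_le_mul_of_nonneg_right h3 hC.le
    linarith
  rw [Metric.tendsto_nhds]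
  intro δ hδ
  obtain ⟨N, hN⟩ := part1 hα'0 hα'1 hc'0 hFF' he0 (by positivity : 0 < δ / 2)
  have hdα : ∀ᶠ n in atTop ⊓ 𝓟 {n | Even n}, α' < (d n : ℝ) / n := hd.eventually_const_lt hlt
  have hev : ∀ᶠ n in atTop ⊓ 𝓟 {n : ℕ | Even n}, N ≤ n ∧ 0 < n :=
    Filter.Eventually.filter_mono inf_le_left
      ((eventually_ge_atTop N).and (eventually_gt_atTop 0))
  have heven : ∀ᶠ n in atTop ⊓ 𝓟 {n : ℕ | Even n}, Even n :=
    Filter.Eventually.filter_mono inf_le_right (eventually_principal.mpr (fun n hn => hn))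
  filter_upwards [hH, hp, hdα, hev, heven] with n hn1 hn2 hn3 hn4 hn5
  obtain ⟨hnN, hn0⟩ := hn4
  have hn0' : (0 : ℝ) < n := by exact_mod_cast hn0
  have h1 := hN n hnN hn5 (H n) (by
    intro v
    obtain ⟨T, hT1, hT2⟩ := (deg_iff (H n) v (d n)).mp (hn1 v)
    refine ⟨T, hT1, ?_⟩
    rw [lt_div_iff₀ hn0'] at hn3
    have : (d n : ℝ) ≤ T.card := by exact_mod_cast hT2
    linarith)
  have h2 : (1 + e) * (c' / (1 - α')) / n ≤ (p n : ℝ) := by
    refine le_trans ?_ hn2
    have h2 : (1 + ε) * (C / (n : ℝ)) = (1 + ε) * C / n := by ring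
    rw [h2]
    exact div_le_div_of_nonneg_right hCC hn0'.le
  have h3 : pr (H n) ((1 + e) * (c' / (1 - α')) / n) ≤ pr (H n) (p n) :=
    pr_mono (H n) (by positivity) h2 (p n).2.2
  have h4 : pr (H n) (p n) ≤ 1 := cP_le_one (p n).2.1 (p n).2.2 _
  rw [real_eq_pr, Real.dist_eq, abs_sub_comm, abs_of_nonneg (by linarith)]
  have h5 : 1 - δ / 2 ≤ pr (H n) ((1 + e) * (c' / (1 - α')) / n) := h1
  linarith

/-- The lower half for sequences. -/
theorem lower_seq {α C ε : ℝ} (hα : 0 < α) (hα1 : α < 1 / 2) (hC : 0 < C)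
    (hFF : FF ((1 - α) * C) = α / (1 - α)) (hε : 0 < ε) (d : ℕ → ℕ)
    (hd : Tendsto (fun n => (d n : ℝ) / n) (atTop ⊓ 𝓟 {n | Even n}) (𝓝 α))
    (hdn : ∀ n, Even n → 0 < n → d n < n) :
    ∃ H : ∀ n, SimpleGraph (Fin n),
      (∀ n, Even n → 0 < n → ∀ v, d n ≤ ((H n).neighborSet v).ncard) ∧
      ∀ p : ℕ → unitInterval,
        (∀ᶠ n in atTop ⊓ 𝓟 {n | Even n}, (p n : ℝ) ≤ (1 - ε) * (C / n)) →
        Tendsto (fun n => (SimpleGraph.binomialRandom (Fin n) (p n)).real
          {G | ∃ M : (H n ⊔ G).Subgraph, M.IsPerfectMatching})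
          (atTop ⊓ 𝓟 {n | Even n}) (𝓝 0) := by
  classical
  have hα2 : 0 < 1 - α := by linarith
  set e : ℝ := min ε 1 / 2 with he
  have he0 : 0 < e := by rw [he]; positivity
  have he1 : 2 * e ≤ ε := by rw [he]; linarith [min_le_left ε 1]
  have he2 : e ≤ 1 / 2 := by rw [he]; linarith [min_le_right ε 1]
  set c : ℝ := (1 - α) * C with hc
  have hc0 : 0 < c := by positivity
  set c' : ℝ := (1 - e) * c with hc'
  have hc'0 : 0 < c' := by
    rw [hc']; exact mul_pos (by linarith) hc0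
  have hcc' : c' < c := by rw [hc']; nlinarith
  have hF1 : FF c < FF c' := FF_strict hc'0.le hcc'
  have hF0 : 0 < FF c' := FF_pos hc'0.le
  have hF2 : FF c' < 1 := FF_lt_one hc'0
  set α' : ℝ := FF c' / (1 + FF c') with hα'
  have hα'0 : 0 < α' := by rw [hα']; positivity
  have hlt : α < α' := by
    rw [hα', lt_div_iff₀ (by positivity)]
    rw [hFF, div_lt_iff₀ hα2] at hF1
    linarith
  have hα'1 : α' < 1 / 2 := by
    rw [hα', div_lt_iff₀ (by positivity)]
    linarith
  have hα'2 : 0 < 1 - α' := by linarith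
  have hFF' : FF c' = α' / (1 - α') := by
    have h1 : 1 - α' = 1 / (1 + FF c') := by rw [hα']; field_simp; ring
    rw [h1, hα']
    field_simp
  -- comparison of the constants
  have hCC : (1 - ε) * C ≤ (1 - e) * (c' / (1 - α')) := by
    have h1 : (1 - e) * C ≤ c' / (1 - α') := by
      rw [le_div_iff₀ hα'2, hc', hc]
      have h2 : (1 - α') ≤ (1 - α) := by linarith
      have h3 : 0 ≤ (1 - e) * C := mul_nonneg (by linarith) hC.le
      have := mul_le_mul_of_nonneg_left h2 h3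
      linarith
    have h2 : (1 - e) * ((1 - e) * C) ≤ (1 - e) * (c' / (1 - α')) :=
      mul_le_mul_of_nonneg_left h1 (by linarith)
    have h3 : 1 - ε ≤ (1 - e) * (1 - e) := by nlinarith
    have h4 := mul_le_mul_of_nonneg_right h3 hC.le
    linarith
  set q : ℕ → ℝ := fun n => (1 - e) * (c' / (1 - α')) / n with hq
  -- the best graphs
  have hex : ∀ n : ℕ, ∃ H : SimpleGraph (Fin n),
      (Even n → 0 < n → ∀ v, d n ≤ (H.neighborSet v).ncard) ∧
      (Even n → 0 < n → ∀ H' : SimpleGraph (Fin n), (∀ v, d n ≤ (H'.neighborSet v).ncard) →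
        pr H (q n) ≤ pr H' (q n)) := by
    intro n
    by_cases hn : Even n ∧ 0 < n
    · have hne : (Finset.univ.filter (fun H : SimpleGraph (Fin n) =>
          ∀ v, d n ≤ (H.neighborSet v).ncard)).Nonempty := by
        refine ⟨⊤, ?_⟩
        rw [Finset.mem_filter]
        refine ⟨Finset.mem_univ _, ?_⟩
        intro v
        rw [deg_iff]
        refine ⟨Finset.univ.erase v, ?_, ?_⟩
        · intro y hy
          rw [SimpleGraph.top_adj]
          exact (Finset.ne_of_mem_erase hy).symm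
        · rw [Finset.card_erase_of_mem (Finset.mem_univ v), Finset.card_univ, Fintype.card_fin]
          have := hdn n hn.1 hn.2
          omega
      obtain ⟨H, hH1, hH2⟩ := Finset.exists_min_image _ (fun H => pr H (q n)) hne
      rw [Finset.mem_filter] at hH1
      refine ⟨H, fun _ _ => hH1.2, fun _ _ H' hH' => hH2 H' ?_⟩
      rw [Finset.mem_filter]
      exact ⟨Finset.mem_univ _, hH'⟩
    · exact ⟨⊥, fun h1 h2 => absurd ⟨h1, h2⟩ hn, fun h1 h2 => absurd ⟨h1, h2⟩ hn⟩
  choose H hH1 hH2 using hex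
  refine ⟨H, hH1, ?_⟩
  intro p hp
  rw [Metric.tendsto_nhds]
  intro δ hδ
  obtain ⟨N, hN⟩ := part0 hα'0 hα'1 hc'0 hFF' he0 (by linarith : e < 1)
    (by positivity : 0 < δ / 2)
  have hdα : ∀ᶠ n in atTop ⊓ 𝓟 {n | Even n}, (d n : ℝ) / n < α' := hd.eventually_lt_const hlt
  have hev : ∀ᶠ n in atTop ⊓ 𝓟 {n : ℕ | Even n}, (N ≤ n ∧ 0 < n) ∧
      (1 - e) * (c' / (1 - α')) / (n : ℝ) ≤ 1 :=
    Filter.Eventually.filter_mono inf_le_left
      (((eventually_ge_atTop N).and (eventually_gt_atTop 0)).and (ev_div_le _ one_pos))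
  have heven : ∀ᶠ n in atTop ⊓ 𝓟 {n : ℕ | Even n}, Even n :=
    Filter.Eventually.filter_mono inf_le_right (eventually_principal.mpr (fun n hn => hn))
  filter_upwards [hp, hdα, hev, heven] with n hn2 hn3 hn4 hn5
  obtain ⟨⟨hnN, hn0⟩, hq1⟩ := hn4
  have hn0' : (0 : ℝ) < n := by exact_mod_cast hn0
  obtain ⟨H', hH'1, hH'2⟩ := hN n hnN
  have h1 : pr (H n) (q n) ≤ pr H' (q n) := by
    apply hH2 n hn5 hn0
    intro v
    rw [deg_iff]
    obtain ⟨T, hT1, hT2⟩ := hH'1 v
    refine ⟨T, hT1, le_trans ?_ hT2⟩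
    rw [div_lt_iff₀ hn0'] at hn3
    have h3 : (d n : ℝ) ≤ (⌈α' * n⌉₊ : ℝ) := hn3.le.trans (Nat.le_ceil _)
    exact_mod_cast h3
  have h2 : (p n : ℝ) ≤ q n := by
    refine hn2.trans ?_
    have h2 : (1 - ε) * (C / (n : ℝ)) = (1 - ε) * C / n := by ring
    rw [h2]
    exact div_le_div_of_nonneg_right hCC hn0'.le
  have h3 : pr (H n) (p n) ≤ pr (H n) (q n) := pr_mono (H n) (p n).2.1 h2 hq1
  have h4 : 0 ≤ pr (H n) (p n) := cP_nonneg (p n).2.1 (p n).2.2 _
  have h5 : pr H' (q n) ≤ δ / 2 := hH'2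
  rw [real_eq_pr, Real.dist_eq, sub_zero, abs_of_nonneg h4]
  linarith

end Pool.Agent.H59.PMI
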